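import Mathlib

set_option autoImplicit false

/-!
# MP_e29ee7_lc (frozen S15510): chains of branches of a tree under embeddability

Statements of the parts.  `Fam X`: the sets `X k m` of reals are such that no `X k m` is a countable
union of sets each of which embeds in the union of the other sets of the family.
`L X x` is the linear order
`... + F_2 + F_1 + F_0 + D_(0,x 0) + D_(1,x 1) + ...`, where `D_(k,n)` is the union of the `X k m`,
`m ≤ n`, and `F_j = D_(ee j)`, where `ee : ℕ → ℕ × ℕ` takes every value infinitely often.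
-/

namespace Pool.Agent.W684.BR

/-- no `X k m` is a countable union of sets each of which embeds in the union of the others -/
def Fam (X : ℕ → ℕ → Set ℝ) : Prop :=
  ∀ (k m : ℕ) (A : ℕ → Set ℝ), X k m ⊆ ⋃ i, A i →
    ∃ i, ∀ h : ℝ → ℝ, StrictMonoOn h (A i ∩ X k m) →
      ∃ r ∈ A i ∩ X k m, ∀ k' m' : ℕ, (k', m') ≠ (k, m) → h r ∉ X k' m'

/-- the union of `X k 0, ..., X k n` -/
def D (X : ℕ → ℕ → Set ℝ) (k n : ℕ) : Set ℝ := {r | ∃ m ≤ n, r ∈ X k m}

/-- takes every value infinitely often -/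
def ee (j : ℕ) : ℕ × ℕ := Nat.unpair (Nat.unpair j).1

/-- the piece with index `i` -/
def lab (X : ℕ → ℕ → Set ℝ) (x : ℕ → ℕ) : ℤ → Set ℝ
  | Int.ofNat k => D X k (x k)
  | Int.negSucc j => D X (ee j).1 (ee j).2

/-- the linear order of the branch `x` -/
def L (X : ℕ → ℕ → Set ℝ) (x : ℕ → ℕ) : Set (ℤ ×ₗ ℝ) :=
  {p | (ofLex p).2 ∈ lab X x (ofLex p).1}

/-- existence of the family (transfinite recursion of length continuum) -/
def S_FAM : Prop := ∃ X : ℕ → ℕ → Set ℝ, Fam X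

/-- finite errors are absorbed by the root piece -/
def S_EMB : Prop := ∀ (X : ℕ → ℕ → Set ℝ) (x y : ℕ → ℕ),
  (∃ K, ∀ k ≥ K, x k ≤ y k) → Nonempty (↥(L X x) ↪o ↥(L X y))

/-- infinitely many errors are not -/
def S_NOEMB : Prop := ∀ X : ℕ → ℕ → Set ℝ, Fam X → ∀ x y : ℕ → ℕ,
  (∃ K, ∀ k ≥ K, x k < y k) → ¬ Nonempty (↥(L X y) ↪o ↥(L X x))

/-- the tree whose maximal chains are the orders `L X x` -/
def S_TREE : Prop := ∀ X : ℕ → ℕ → Set ℝ, (∀ k m, (X k m).Nonempty) →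
  ∃ (T : Type) (_ : PartialOrder T),
    (∀ t : T, IsChain (· ≤ ·) {y : T | y < t}) ∧
    (∃ f : ℕ → Set T, (∀ n, IsChain (· ≤ ·) (f n)) ∧ (⋃ n, f n) = Set.univ) ∧
    ∃ B : (ℕ → ℕ) → Set T, (∀ c : Set T, IsMaxChain (· ≤ ·) c ↔ ∃ x, c = B x) ∧
      ∀ x, Nonempty (↥(B x) ≃o ↥(L X x))

end Pool.Agent.W684.BR
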